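import Mathlib
import Pool.Agent.Helper84.LIN.W4
import Pool.Agent.Helper84.EQ.Kap

/-!
# Project EQM, block H: the coordinates of a character as functions on the Galois group
-/

set_option autoImplicit false
set_option linter.unusedSectionVars false

open NumberField IsDedekindDomain Module

open scoped Pointwise nonZeroDivisors

namespace Pool.Agent.Helper56.EQM

open Helper45.TC Helper84.TC Helper84.LIN Helper91.LIN
open Pool.Agent.Helper84.EQ (exists_kap Psg_of_Pst)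
open Pool.Agent.Helper90.EQ (Psg)

section kap

variable {K L Ω : Type} [Field K] [NumberField K] [Field L] [NumberField L] [Field Ω]
  [Algebra K L] [Algebra L Ω] [Algebra K Ω] [IsScalarTower K L Ω] [IsGalois K Ω] [IsGalois L Ω]
  [Normal K L] {p : ℕ} [Fact p.Prime] [IsAlgClosed Ω] [DecidableEq (HeightOneSpectrum (𝓞 L))]

/-- the action of the Galois group on the coordinates of the characters, for logarithms which are
permuted up to constants -/
theorem kap_cjc' (hcl : ¬ p ∣ classNumber L) (T : Finset (HeightOneSpectrum (𝓞 L)))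
    (Lg : HeightOneSpectrum (𝓞 L) → 𝓞 L → ZMod p)
    (kap : H L Ω p T →ₗ[ZMod p] (HeightOneSpectrum (𝓞 L) → ZMod p))
    (h2 : ∀ x : HeightOneSpectrum (𝓞 L) → ZMod p, (∀ v, v ∉ T → x v = 0) →
      (∀ ε : (𝓞 L)ˣ, ∑ v ∈ T, x v * Lg v ε = 0) → ∃ χ, kap χ = x)
    (h3 : ∀ χ, ∀ v, v ∉ T → kap χ v = 0)
    (h4 : ∀ χ, ∀ ε : (𝓞 L)ˣ, ∑ v ∈ T, kap χ v * Lg v ε = 0)
    (h6 : ∀ χ : H L Ω p T, ∀ u, Pst p u → Unr L Ω (χ : (Ω ≃ₐ[L] Ω) → ZMod p) u → ∀ π : 𝓞 L,
      Ideal.span {π} = u.asIdeal ^ classNumber L →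
        (classNumber L : ZMod p) * ev (χ : (Ω ≃ₐ[L] Ω) → ZMod p) u =
          - ∑ v ∈ T.erase u, kap χ v * Lg v π)
    (g : Ω ≃ₐ[K] Ω) (hT : ∀ v ∈ T, cj (rn L g) v ∈ T)
    (t : HeightOneSpectrum (𝓞 L) → ZMod p)
    (hLg : ∀ v ∈ T, ∀ a, a ∉ (cj (rn L g) v).asIdeal →
      Lg v (rn L g • a) = t v * Lg (cj (rn L g) v) a)
    (χ : H L Ω p T) : ∃ χ' : H L Ω p T, (χ' : (Ω ≃ₐ[L] Ω) → ZMod p) = cjc g χ ∧
      ∀ v, kap χ' (cj (rn L g) v) = t v * kap χ v := by
  classical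
  set σ := rn L g with hσ
  have hne : (classNumber L : ZMod p) ≠ 0 := fun h => hcl ((ZMod.natCast_eq_zero_iff _ _).1 h)
  -- sums over `T`
  have hinj : Set.InjOn (cj σ : HeightOneSpectrum (𝓞 L) → HeightOneSpectrum (𝓞 L)) T :=
    fun a _ b _ h => cj_inj σ h
  have himg : T.image (cj σ : HeightOneSpectrum (𝓞 L) → HeightOneSpectrum (𝓞 L)) = T := by
    refine Finset.eq_of_subset_of_card_le ?_ ?_
    · intro v hv
      obtain ⟨u, hu, rfl⟩ := Finset.mem_image.1 hv
      exact hT u hu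
    · rw [Finset.card_image_of_injOn hinj]
  have hsum : ∀ f : HeightOneSpectrum (𝓞 L) → ZMod p,
      ∑ v ∈ T, f v = ∑ u ∈ T, f (cj σ u) := by
    intro f
    conv_lhs => rw [← himg]
    rw [Finset.sum_image hinj]
  set x : HeightOneSpectrum (𝓞 L) → ZMod p := fun v => t (cj σ⁻¹ v) * kap χ (cj σ⁻¹ v) with hx
  have hxc : ∀ v, x (cj σ v) = t v * kap χ v := by
    intro v
    rw [hx]
    change t (cj σ⁻¹ (cj σ v)) * kap χ (cj σ⁻¹ (cj σ v)) = _
    rw [cj_inv_cj]
  have hx0 : ∀ v, v ∉ T → x v = 0 := by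
    intro v hv
    have h7 : kap χ (cj σ⁻¹ v) = 0 := by
      refine h3 _ _ fun h => hv ?_
      rw [← cj_cj_inv σ v]
      exact hT _ h
    change t (cj σ⁻¹ v) * kap χ (cj σ⁻¹ v) = 0
    rw [h7, mul_zero]
  have hxs : ∀ a : 𝓞 L, (∀ v ∈ T, a ∉ v.asIdeal) →
      ∑ v ∈ T, x v * Lg v a = ∑ v ∈ T, kap χ v * Lg v (σ • a) := by
    intro a ha
    rw [hsum]
    refine Finset.sum_congr rfl fun v hv => ?_
    rw [hxc, hLg v hv a (ha _ (hT v hv))]
    ring
  obtain ⟨χ', hχ'⟩ := h2 x hx0 (fun ε => by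
    rw [hxs ε (fun v _ => Helper77.TC.unit_notMem v ε)]
    have h7 := h4 χ (Units.map (MulSemiringAction.toRingHom (L ≃ₐ[K] L) (𝓞 L) σ).toMonoidHom ε)
    exact h7)
  have hmem : cjc g (χ : (Ω ≃ₐ[L] Ω) → ZMod p) ∈ H L Ω p T := H_cjc hT χ.2
  refine ⟨χ', ?_, fun v => by rw [hχ', hxc]⟩
  rw [← sub_eq_zero]
  refine H_ext' p ((Ch L Ω p).sub_mem χ'.2.1 hmem.1) (T : Set _) T.finite_toSet fun w hw hw' => ?_
  have hwT : w ∉ T := hw
  set u := cj σ⁻¹ w with hu
  have huw : cj σ u = w := cj_cj_inv σ w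
  have huT : u ∉ T := fun h => hwT (by rw [← huw]; exact hT _ h)
  have hu' : Pst p u := pst_cj hw'
  obtain ⟨π, hπ⟩ := Helper77.TC.exists_gen w
  have hπ' : Ideal.span {σ • π} = u.asIdeal ^ classNumber L := by
    have h8 := span_smul_cj σ⁻¹ hπ
    rwa [inv_inv] at h8
  have hπT : ∀ v ∈ T, π ∉ v.asIdeal := by
    intro v hv hh
    have h9 : w.asIdeal ^ classNumber L ≤ v.asIdeal := by
      rw [← hπ, Ideal.span_singleton_le_iff_mem]
      exact hh
    have h10 : w.asIdeal ≤ v.asIdeal := v.isPrime.le_of_pow_le h9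
    have h11 : w = v := by
      apply HeightOneSpectrum.ext
      exact w.isMaximal.eq_of_le v.isPrime.ne_top h10
    exact hwT (h11 ▸ hv)
  have e1 := h6 χ' w hw' (χ'.2.2 w hwT) π hπ
  have e2 := h6 χ u hu' (χ.2.2 u huT) (σ • π) hπ'
  rw [Finset.erase_eq_of_notMem hwT, hχ', hxs π hπT] at e1
  rw [Finset.erase_eq_of_notMem huT] at e2
  have e3 : ev (cjc g (χ : (Ω ≃ₐ[L] Ω) → ZMod p)) w = ev (χ : (Ω ≃ₐ[L] Ω) → ZMod p) u := by
    rw [← huw]
    exact ev_cjc χ.2.1 (χ.2.2 u huT) g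
  have e4 : ev ((χ' : (Ω ≃ₐ[L] Ω) → ZMod p) - cjc g (χ : (Ω ≃ₐ[L] Ω) → ZMod p)) w =
      ev (χ' : (Ω ≃ₐ[L] Ω) → ZMod p) w - ev (cjc g (χ : (Ω ≃ₐ[L] Ω) → ZMod p)) w := rfl
  rw [e4, e3, sub_eq_zero]
  exact mul_left_cancel₀ hne (e1.trans e2.symm)

end kap

section mid

variable {K M Ω : Type} [Field K] [NumberField K] [Field M] [NumberField M] [Field Ω]
  [Algebra K M] [Algebra M Ω] [Algebra K Ω] [IsScalarTower K M Ω] [IsGalois K Ω] [IsGalois M Ω]
  [IsGalois K M] {p : ℕ} [Fact p.Prime] [IsAlgClosed Ω]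

/-- A character of `M` which is unramified outside the conjugates of the primes `v i` is described
by functions `k i` on the Galois group; if these functions are invariant under right translation by
the restriction of `g`, the character is invariant under `g`. -/
theorem exists_fun {ι : Type} [Fintype ι] [Nonempty ι] (hp2 : p ≠ 2) (hcl : ¬ p ∣ classNumber M)
    (v : ι → HeightOneSpectrum (𝓞 M)) (l : ι → 𝓞 M → ZMod p) (s : ι → M ≃ₐ[K] M)
    (ω : ι → ZMod p) (hl : ∀ i, IsLg p (v i) (l i)) (hps : ∀ i, Psg p (v i))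
    (hs : ∀ i x, x ∉ (v i).asIdeal → l i (s i • x) = ω i * l i x)
    (hst : ∀ i g, cj g (v i) = v i ↔ g ∈ Subgroup.zpowers (s i))
    (hc : ∀ i, (orderOf (s i) : ZMod p) ≠ 0)
    (hinj : Function.Injective fun i => un K (v i))
    {T : Finset (HeightOneSpectrum (𝓞 M))} (hT : ∀ w, w ∈ T ↔ ∃ i, un K w = un K (v i))
    {χ : (Ω ≃ₐ[M] Ω) → ZMod p} (hχ : χ ∈ H M Ω p T) :
    ∃ k : ι → (M ≃ₐ[K] M) → ZMod p, (∀ i q, ω i * k i (s i * q) = k i q) ∧
      (∀ ε : (𝓞 M)ˣ, ∑ i, (orderOf (s i) : ZMod p)⁻¹ *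
        ∑ q : M ≃ₐ[K] M, k i q * l i (q • (ε : 𝓞 M)) = 0) ∧
      ∀ g : Ω ≃ₐ[K] Ω, (∀ i q, k i (q * rn M g) = k i q) → cjc g χ = χ := by
  classical
  have hp : p.Prime := Fact.out
  have hfin : FiniteDimensional K M := FiniteDimensional.right ℚ K M
  -- the primes
  have hcov : ∀ w ∈ T, ∃ x : ι × (M ≃ₐ[K] M), cj x.2 (v x.1) = w := by
    intro w hw
    obtain ⟨i, hi⟩ := (hT w).1 hw
    obtain ⟨g, hg⟩ := exists_cj hi.symm
    exact ⟨(i, g), hg.symm⟩
  have hmem : ∀ i (q : M ≃ₐ[K] M), cj q (v i) ∈ T := fun i q => (hT _).2 ⟨i, un_cj q (v i)⟩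
  have hpsg : ∀ w ∈ T, Psg p w := by
    intro w hw
    obtain ⟨x, rfl⟩ := hcov w hw
    unfold Psg
    rw [nm_cj]
    exact hps x.1
  have hsv : ∀ i, cj (s i) (v i) = v i := fun i => (hst i _).2 (Subgroup.mem_zpowers _)
  have hsn : ∀ i (x : 𝓞 M), x ∉ (v i).asIdeal → s i • x ∉ (v i).asIdeal := by
    intro i x hx h
    apply hx
    rw [← hsv i, mem_cj]
    exact h
  have hω : ∀ i, ω i ≠ 0 := by
    intro i h0
    obtain ⟨y, hy, hy1⟩ := Helper77.TC.exists_lg_one (hps i).2 (hl i)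
    have h1 : (s i)⁻¹ • y ∉ (v i).asIdeal := by
      intro h
      apply hy
      rw [← hsv i, mem_cj] at h
      rwa [smul_inv_smul] at h
    have h2 := hs i _ h1
    rw [smul_inv_smul, hy1, h0, zero_mul] at h2
    exact one_ne_zero h2
  have hpow : ∀ i (n : ℕ) (x : 𝓞 M), x ∉ (v i).asIdeal →
      (s i ^ n) • x ∉ (v i).asIdeal ∧ l i ((s i ^ n) • x) = ω i ^ n * l i x := by
    intro i n
    induction n with
    | zero =>
      intro x hx
      rw [pow_zero, one_smul, pow_zero, one_mul]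
      exact ⟨hx, rfl⟩
    | succ n ih =>
      intro x hx
      obtain ⟨h1, h2⟩ := ih x hx
      rw [pow_succ', mul_smul]
      refine ⟨hsn i _ h1, ?_⟩
      rw [hs i _ h1, h2]
      ring
  -- the logarithms
  let Lg : HeightOneSpectrum (𝓞 M) → 𝓞 M → ZMod p := fun w a =>
    if h : ∃ x : ι × (M ≃ₐ[K] M), cj x.2 (v x.1) = w then
      l h.choose.1 (h.choose.2 • a) else 0
  have hLg0 : ∀ w ∈ T, IsLg p w (Lg w) := by
    intro w hw
    have h := hcov w hw
    have h1 : Lg w = fun a => l h.choose.1 (h.choose.2 • a) := funext fun a => dif_pos h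
    rw [h1]
    have h2 := isLg_cj (hl h.choose.1) h.choose.2
    rwa [h.choose_spec] at h2
  have hu' : ∀ i (q : M ≃ₐ[K] M), ∃ u : ZMod p, u ≠ 0 ∧ ∀ a, a ∉ (cj q (v i)).asIdeal →
      l i (q • a) = u * Lg (cj q (v i)) a := by
    intro i q
    have h : ∃ x : ι × (M ≃ₐ[K] M), cj x.2 (v x.1) = cj q (v i) := ⟨(i, q), rfl⟩
    have h1 : Lg (cj q (v i)) = fun a => l h.choose.1 (h.choose.2 • a) :=
      funext fun a => dif_pos h
    have h2 := h.choose_spec
    have h3 : h.choose.1 = i := by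
      apply hinj
      change un K (v h.choose.1) = un K (v i)
      rw [← un_cj h.choose.2 (v h.choose.1), h2, un_cj]
    rw [h1]
    generalize h.choose = x at h2 h3
    obtain ⟨j, g⟩ := x
    dsimp only at h2 h3 ⊢
    subst h3
    have h4 : cj (q * g⁻¹) (v j) = v j := by
      rw [cj_mul, ← h2, ← cj_mul, mul_inv_cancel, cj_one]
    obtain ⟨n, hn⟩ := (mem_powers_iff_mem_zpowers.2 ((hst j _).1 h4))
    have hn' : q = s j ^ n * g := by
      rw [show s j ^ n = q * g⁻¹ from hn, inv_mul_cancel_right]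
    refine ⟨ω j ^ n, pow_ne_zero _ (hω j), fun a ha => ?_⟩
    rw [← h2] at ha
    rw [hn', mul_smul]
    exact (hpow j n _ ha).2
  choose u hu0 hu using hu'
  have hcs : ∀ i (q : M ≃ₐ[K] M), cj (s i * q) (v i) = cj q (v i) := by
    intro i q
    rw [cj_mul, hsv]
  have hus : ∀ i (q : M ≃ₐ[K] M), u i (s i * q) = ω i * u i q := by
    intro i q
    obtain ⟨a, ha, ha1⟩ := Helper77.TC.exists_lg_one (hpsg _ (hmem i q)).2 (hLg0 _ (hmem i q))
    have h1 := hu i (s i * q) a (by rw [hcs]; exact ha)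
    have h2 := hu i q a ha
    have h3 : l i (s i • q • a) = ω i * l i (q • a) := hs i (q • a) ha
    rw [hcs, ha1, mul_one, mul_smul, h3, h2, ha1, mul_one] at h1
    exact h1.symm
  obtain ⟨kap, hkinj, hk2, hk3, hk4, -, hk6⟩ := exists_kap (Ω := Ω) p hp2 hcl T hpsg Lg hLg0
  set X : H M Ω p T := ⟨χ, hχ⟩ with hX
  refine ⟨fun i q => (u i q)⁻¹ * kap X (cj q (v i)), fun i q => ?_, fun ε => ?_, fun g hg => ?_⟩
  · dsimp only
    rw [hus, hcs, mul_inv, ← mul_assoc, ← mul_assoc, mul_inv_cancel₀ (hω i), one_mul]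
  · dsimp only
    set f : HeightOneSpectrum (𝓞 M) → ZMod p := fun w => kap X w * Lg w ε with hf
    have h1 : ∀ i (q : M ≃ₐ[K] M),
        (u i q)⁻¹ * kap X (cj q (v i)) * l i (q • (ε : 𝓞 M)) = f (cj q (v i)) := by
      intro i q
      rw [hu i q _ (Helper77.TC.unit_notMem _ ε), hf]
      dsimp only
      have := hu0 i q
      field_simp
    have hfib : ∀ i w, un K w = un K (v i) →
        (Finset.univ.filter fun q : M ≃ₐ[K] M => cj q (v i) = w).card = orderOf (s i) := by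
      intro i w hw
      obtain ⟨g, hg⟩ := exists_cj (P := v i) (Q := w) hw.symm
      have h2 : (Finset.univ.filter fun q : M ≃ₐ[K] M => cj q (v i) = w) =
          Finset.univ.image fun z : Subgroup.zpowers (s i) => (z : M ≃ₐ[K] M) * g := by
        ext q
        rw [Finset.mem_filter, Finset.mem_image]
        constructor
        · rintro ⟨-, h⟩
          have h4 : cj (q * g⁻¹) (v i) = v i := by
            rw [cj_mul, h, hg, ← cj_mul, mul_inv_cancel, cj_one]
          exact ⟨⟨q * g⁻¹, (hst i _).1 h4⟩, Finset.mem_univ _, inv_mul_cancel_right _ _⟩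
        · rintro ⟨z, -, rfl⟩
          refine ⟨Finset.mem_univ _, ?_⟩
          rw [cj_mul, (hst i _).2 z.2, hg]
      rw [h2, Finset.card_image_of_injective _ fun a b h => Subtype.ext (mul_right_cancel h),
        Finset.card_univ, Fintype.card_zpowers]
    have h3 : ∀ i, (orderOf (s i) : ZMod p)⁻¹ * ∑ q : M ≃ₐ[K] M,
        (u i q)⁻¹ * kap X (cj q (v i)) * l i (q • (ε : 𝓞 M)) =
        ∑ w ∈ T, if un K w = un K (v i) then f w else 0 := by
      intro i
      rw [Finset.sum_congr rfl fun q _ => h1 i q,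
        ← Finset.sum_fiberwise_of_maps_to (t := T) (g := fun q : M ≃ₐ[K] M => cj q (v i))
          (fun q _ => hmem i q), Finset.mul_sum]
      refine Finset.sum_congr rfl fun w hw => ?_
      rw [Finset.sum_congr rfl (g := fun _ => f w) fun q hq => by
        rw [(Finset.mem_filter.1 hq).2], Finset.sum_const, nsmul_eq_mul]
      by_cases h : un K w = un K (v i)
      · rw [hfib i w h, if_pos h, ← mul_assoc, inv_mul_cancel₀ (hc i), one_mul]
      · rw [if_neg h, Finset.filter_eq_empty_iff.2, Finset.card_empty, Nat.cast_zero, zero_mul,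
          mul_zero]
        intro q _ hq
        apply h
        rw [← hq, un_cj]
    rw [Finset.sum_congr rfl fun i _ => h3 i, Finset.sum_comm]
    refine (Finset.sum_congr rfl fun w hw => ?_).trans (hk4 X ε)
    obtain ⟨i, hi⟩ := (hT w).1 hw
    rw [Finset.sum_eq_single i (fun j _ hj => if_neg fun h => hj (hinj (h.symm.trans hi)))
      (fun h => absurd (Finset.mem_univ i) h), if_pos hi]
  · choose! rep hrep using hcov
    have hT' : ∀ w ∈ T, cj (rn M g) w ∈ T := by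
      intro w hw
      obtain ⟨i, hi⟩ := (hT w).1 hw
      exact (hT _).2 ⟨i, by rw [un_cj, hi]⟩
    obtain ⟨χ', h1, h2⟩ := kap_cjc' (K := K) hcl T Lg kap hk2 hk3 hk4
      (fun χ u hu => hk6 χ u (Psg_of_Pst hu)) g hT'
      (fun w => (u (rep w).1 (rep w).2)⁻¹ * u (rep w).1 ((rep w).2 * rn M g)) (by
        intro w hw a ha
        have h3 := hrep w hw
        have h4 := hu (rep w).1 (rep w).2 (rn M g • a) (by rw [h3]; exact ha)
        have h5 := hu (rep w).1 ((rep w).2 * rn M g) a (by rw [cj_mul, h3]; exact ha)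
        have h6 := hu0 (rep w).1 (rep w).2
        rw [h3] at h4
        rw [cj_mul, h3, mul_smul, h4] at h5
        rw [mul_assoc, ← h5, inv_mul_cancel_left₀ h6]) X
    rw [← h1]
    suffices h : χ' = X by rw [h]
    apply hkinj
    funext w
    by_cases hw : w ∈ T
    · obtain ⟨i, hi⟩ := (hT w).1 hw
      have hw' : cj (rn M g)⁻¹ w ∈ T := (hT _).2 ⟨i, by rw [un_cj, hi]⟩
      have h3 := hrep _ hw'
      have h4 := h2 (cj (rn M g)⁻¹ w)
      set x := rep (cj (rn M g)⁻¹ w) with hx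
      have h5 := hg x.1 x.2
      dsimp only at h4 h5
      rw [cj_mul, h3, cj_cj_inv] at h5
      rw [cj_cj_inv] at h4
      rw [h4]
      have h6 := hu0 x.1 (x.2 * rn M g)
      have h7 : kap X w = u x.1 (x.2 * rn M g) * ((u x.1 (x.2 * rn M g))⁻¹ * kap X w) := by
        rw [mul_inv_cancel_left₀ h6]
      rw [h7, h5]
      ring
    · rw [hk3 _ w hw, hk3 _ w hw]

end mid

end Pool.Agent.Helper56.EQM
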